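import Pool.Agent.Results.MP_8dd8b0_nt.FewExceptions
import Pool.Agent.U513.AP.Sparse

/-!
# A central binomial congruence near integral polynomials at simultaneous approximations

The starting file bounds the number of the products `n = p q ≤ N` of two different odd primes which satisfy the congruence. Here:
for all points `α` outside of a set of small Hausdorff dimension, NO such `n` near an integral polynomial at an approximation of `α`
with a large denominator satisfies it.
-/

set_option autoImplicit false

open Finset

namespace Pool.Agent.Results.MP_8dd8b0_nt.Approximations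

open Pool.Agent.U513.AP

/-- The property if `n` is the product of two different odd primes then the central binomial congruence modulo `n` fails holds at
approximations outside of exceptional sets of exponent `6 / 7`. -/
theorem result : AtApproximations (ι := Unit) (6 / 7)
    (fun _ n => ∀ p q : ℕ, p.Prime → q.Prime → Odd p → Odd q → p ≠ q → n = p * q →
      ¬ ((Nat.choose (n - 1) ((n - 1) / 2) : ℤ) ≡ (-1 : ℤ) ^ ((n - 1) / 2) [ZMOD (n : ℤ)])) := by
  classical
  have h := FewExceptions.result.2
  have key := sparse_law_pow (ι := Unit) (c := 1 / 7) (by norm_num)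
    (fun _ n => ∀ p q : ℕ, p.Prime → q.Prime → Odd p → Odd q → p ≠ q → n = p * q →
      ¬ ((Nat.choose (n - 1) ((n - 1) / 2) : ℤ) ≡ (-1 : ℤ) ^ ((n - 1) / 2) [ZMOD (n : ℤ)]))
    fun _ => ⟨3648, 1, fun X hX => ?_⟩
  · rwa [show (1 : ℝ) - 1 / 7 = 6 / 7 by norm_num] at key
  · have hfin : (FewExceptions.E X).Finite := (Set.finite_Iic X).subset fun n hn => hn.1
    rw [show (1 : ℝ) - 1 / 7 = 6 / 7 by norm_num]
    refine (Nat.cast_le.2 (Set.ncard_le_ncard ?_ hfin)).trans (h X hX)
    rintro n ⟨_, hn2, hn3⟩
    push Not at hn3
    obtain ⟨p, q, h1, h2, h3, h4, h5, h6, h7⟩ := hn3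
    exact ⟨hn2, p, q, h1, h2, h3, h4, h5, h6, h7⟩

end Pool.Agent.Results.MP_8dd8b0_nt.Approximations
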